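import Pool.Agent.H88.OT.Targets
import Pool.Agent.H3.PC.DB

/-!
# Module LB: the low frequencies off the diagonal
-/

set_option autoImplicit false

open Complex MeasureTheory Set

namespace Pool.Agent.H6.OT

open Pool.Agent.H88.OT
open Pool.Agent.H23.GLH (PrimChar)
open Pool.Agent.H28.MZ (ei co Bf V W SS DS Sy PP Mol dv)

/-- `(1 + log n)² ≤ 33² n^{1/16}` -/
theorem one_add_log_sq (n : ℝ) (hn : 1 ≤ n) :
    (1 + Real.log n) ^ 2 ≤ 1089 * n ^ (1 / 16 : ℝ) := by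
  have h1 : Real.log n ≤ n ^ (1 / 32 : ℝ) / (1 / 32) :=
    Real.log_le_rpow_div (by linarith) (by norm_num)
  have h2 : (1 : ℝ) ≤ n ^ (1 / 32 : ℝ) := Real.one_le_rpow hn (by norm_num)
  have h0 : 0 ≤ Real.log n := Real.log_nonneg hn
  have h3 : 1 + Real.log n ≤ 33 * n ^ (1 / 32 : ℝ) := by
    have : n ^ (1 / 32 : ℝ) / (1 / 32) = 32 * n ^ (1 / 32 : ℝ) := by ring
    linarith
  have h4 : (n ^ (1 / 32 : ℝ)) ^ 2 = n ^ (1 / 16 : ℝ) := by
    rw [← Real.rpow_natCast, ← Real.rpow_mul (by linarith)]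
    norm_num
  calc (1 + Real.log n) ^ 2 ≤ (33 * n ^ (1 / 32 : ℝ)) ^ 2 :=
        pow_le_pow_left₀ (by linarith) h3 2
    _ = 1089 * n ^ (1 / 16 : ℝ) := by rw [mul_pow, h4]; norm_num

/-- the size of `|Q1| L + |Q2|` -/
theorem key (hQB : T_QB) (q : ℕ) (hq : 1 ≤ q) (κ : ℝ) (hκ : 0 < κ) :
    ∃ C : ℝ, 0 < C ∧ ∀ (Y a b : ℕ) (L : ℝ), 2 ≤ Y → 1 ≤ a → 1 ≤ b → Nat.Coprime a b →
      Nat.Coprime (a * b) q → (a, b) ≠ (1, 1) → 0 < L → κ * L ≤ Real.log Y →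
      |Q1 q Y a b| * L + |Q2 q Y a b| ≤ C / L * ((a : ℝ) * b) ^ (1 / 8 : ℝ) := by
  obtain ⟨CQ, hCQ, hQ⟩ := hQB q hq
  obtain ⟨Cd, hCd, hd⟩ := Pool.Agent.H3.PC.DB.pf_DB (1 / 16) (by norm_num)
  refine ⟨CQ * (Cd * 1089) * (1 / κ ^ 2 + 1 / κ), by positivity, ?_⟩
  intro Y a b L hY ha hb hab habq hne hL hlog
  obtain ⟨h1, h2⟩ := hQ Y a b hY ha hb hab habq hne
  have hab1 : 1 ≤ a * b := Nat.one_le_iff_ne_zero.2 (Nat.mul_ne_zero (by omega) (by omega))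
  have habR : (1 : ℝ) ≤ (a : ℝ) * b := by exact_mod_cast hab1
  have hdv : dv (a * b) ≤ Cd * ((a : ℝ) * b) ^ (1 / 16 : ℝ) := by
    have := hd (a * b) hab1
    push_cast at this
    exact this
  have hdv0 : 0 ≤ dv (a * b) := Nat.cast_nonneg _
  have hl := one_add_log_sq ((a : ℝ) * b) habR
  have hlog0 : 0 ≤ Real.log ((a : ℝ) * b) := Real.log_nonneg habR
  have hE : dv (a * b) * (1 + Real.log ((a : ℝ) * b)) ^ 2 ≤
      Cd * 1089 * ((a : ℝ) * b) ^ (1 / 8 : ℝ) := by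
    have e1 : ((a : ℝ) * b) ^ (1 / 16 : ℝ) * ((a : ℝ) * b) ^ (1 / 16 : ℝ) =
        ((a : ℝ) * b) ^ (1 / 8 : ℝ) := by
      rw [← Real.rpow_add (by linarith)]
      norm_num
    calc dv (a * b) * (1 + Real.log ((a : ℝ) * b)) ^ 2 ≤
          (Cd * ((a : ℝ) * b) ^ (1 / 16 : ℝ)) * (1089 * ((a : ℝ) * b) ^ (1 / 16 : ℝ)) :=
          mul_le_mul hdv hl (by positivity) (by positivity)
      _ = Cd * 1089 * (((a : ℝ) * b) ^ (1 / 16 : ℝ) * ((a : ℝ) * b) ^ (1 / 16 : ℝ)) := by ring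
      _ = _ := by rw [e1]
  have hD : dv (a * b) * (1 + Real.log ((a : ℝ) * b)) ≤
      dv (a * b) * (1 + Real.log ((a : ℝ) * b)) ^ 2 := by
    apply mul_le_mul_of_nonneg_left _ hdv0
    nlinarith
  set E : ℝ := dv (a * b) * (1 + Real.log ((a : ℝ) * b)) ^ 2 with hEdef
  have hE0 : 0 ≤ E := by positivity
  have hκL : 0 < κ * L := mul_pos hκ hL
  have hlogY : 0 < Real.log Y := lt_of_lt_of_le hκL hlog
  have g1 : |Q1 q Y a b| ≤ CQ * E / (κ * L) ^ 2 := by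
    refine h1.trans ?_
    calc CQ * dv (a * b) * (1 + Real.log ((a : ℝ) * b)) / Real.log Y ^ 2
        = CQ * (dv (a * b) * (1 + Real.log ((a : ℝ) * b))) / Real.log Y ^ 2 := by ring
      _ ≤ CQ * E / Real.log Y ^ 2 := by
          apply div_le_div_of_nonneg_right _ (by positivity)
          exact mul_le_mul_of_nonneg_left hD hCQ.le
      _ ≤ CQ * E / (κ * L) ^ 2 := by
          apply div_le_div_of_nonneg_left (by positivity) (by positivity)
          exact pow_le_pow_left₀ hκL.le hlog 2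
  have g2 : |Q2 q Y a b| ≤ CQ * E / (κ * L) := by
    refine h2.trans ?_
    calc CQ * dv (a * b) * (1 + Real.log ((a : ℝ) * b)) ^ 2 / Real.log Y
        = CQ * E / Real.log Y := by rw [hEdef]; ring
      _ ≤ CQ * E / (κ * L) :=
          div_le_div_of_nonneg_left (by positivity) hκL hlog
  calc |Q1 q Y a b| * L + |Q2 q Y a b|
      ≤ CQ * E / (κ * L) ^ 2 * L + CQ * E / (κ * L) :=
        add_le_add (mul_le_mul_of_nonneg_right g1 hL.le) g2
    _ = CQ * (1 / κ ^ 2 + 1 / κ) / L * E := by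
        field_simp
    _ ≤ CQ * (1 / κ ^ 2 + 1 / κ) / L * (Cd * 1089 * ((a : ℝ) * b) ^ (1 / 8 : ℝ)) :=
        mul_le_mul_of_nonneg_left hE (by positivity)
    _ = _ := by ring

theorem pf_LB (hLO : T_LO) (hQB : T_QB) (hDY : T_DY) (hKB : T_KB) : T_LB := by
  intro π θ η hθ hη hθη hη4
  obtain ⟨N₀, hN₀⟩ := hLO π θ η hθ hη hθη
  refine ⟨N₀, ?_⟩
  intro N hN C₁ hC₁
  obtain ⟨CL, ε₀, T₀, hCL, hε₀, hmain⟩ := hN₀ N hN
  have hq : 1 ≤ π.q := Nat.one_le_iff_ne_zero.2 π.q_ne.out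
  obtain ⟨CK, hCK, hkey⟩ := key hQB π.q hq (θ / 2) (by positivity)
  obtain ⟨CD, hCD, hdy⟩ := hDY (1 / 8) (by norm_num) (by norm_num)
  refine ⟨CL * CK * CD * 2, min ε₀ (1 / 2), max T₀ (max 2 (max C₁ ((4 : ℝ) ^ (1 / θ)))),
    by positivity, lt_min hε₀ (by norm_num), ?_⟩
  intro T u μ ν A B hT hu huC hA hB
  have hT1 : T₀ ≤ T := (le_max_left _ _).trans hT
  have hT2' : max 2 (max C₁ ((4 : ℝ) ^ (1 / θ))) ≤ T := (le_max_right _ _).trans hT
  have hT2 : 2 ≤ T := (le_max_left _ _).trans hT2'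
  have hT3' : max C₁ ((4 : ℝ) ^ (1 / θ)) ≤ T := (le_max_right _ _).trans hT2'
  have hTC : C₁ ≤ T := (le_max_left _ _).trans hT3'
  have hT4 : (4 : ℝ) ^ (1 / θ) ≤ T := (le_max_right _ _).trans hT3'
  have hT0 : 0 < T := by linarith
  have hTge1 : 1 ≤ T := by linarith
  have hTθ : 4 ≤ T ^ θ := by
    calc (4 : ℝ) = ((4 : ℝ) ^ (1 / θ)) ^ θ := by
          rw [← Real.rpow_mul (by norm_num), one_div_mul_cancel hθ.ne', Real.rpow_one]
      _ ≤ T ^ θ := Real.rpow_le_rpow (by positivity) hT4 hθ.le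
  have hTη : 1 ≤ T ^ η := Real.one_le_rpow hTge1 hη.le
  have hu1 : T ^ (1 - ε₀) ≤ u := by
    refine le_trans (Real.rpow_le_rpow_of_exponent_le hTge1 ?_) hu
    have := min_le_left ε₀ (1 / 2)
    linarith
  have hu2 : T ^ (1 / 2 : ℝ) ≤ u := by
    refine le_trans (Real.rpow_le_rpow_of_exponent_le hTge1 ?_) hu
    have := min_le_right ε₀ (1 / 2)
    linarith
  have hu3 : 1 ≤ u := le_trans (Real.one_le_rpow hTge1 (by norm_num)) hu2
  have hu4 : u ≤ T ^ (2 : ℝ) := by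
    refine huC.trans ?_
    rw [Real.rpow_two, sq]
    exact mul_le_mul_of_nonneg_right hTC hT0.le
  have hlogT : 0 < Real.log T := Real.log_pos (by linarith)
  set Y : ℕ := ⌊T ^ θ⌋₊ with hYdef
  set Z : ℕ := ⌊T ^ η⌋₊ with hZdef
  have hYge : T ^ θ / 2 ≤ (Y : ℝ) := by
    have := Nat.lt_floor_add_one (T ^ θ)
    rw [← hYdef] at this
    linarith
  have hY2 : 2 ≤ Y := by
    have : (2 : ℝ) ≤ (Y : ℝ) := by linarith
    exact_mod_cast this
  have hlogY : θ / 2 * Real.log T ≤ Real.log Y := by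
    have h1 : Real.log (T ^ θ / 2) ≤ Real.log Y := Real.log_le_log (by positivity) hYge
    rw [Real.log_div (by positivity) (by norm_num), Real.log_rpow hT0] at h1
    have h2 : Real.log 4 ≤ θ * Real.log T := by
      rw [← Real.log_rpow hT0]
      exact Real.log_le_log (by norm_num) hTθ
    have h3 : Real.log 4 = 2 * Real.log 2 := by
      rw [show (4 : ℝ) = 2 ^ (2 : ℕ) by norm_num, Real.log_pow]
      norm_num
    linarith
  have hmA : 0 ≤ A.m := Finset.sum_nonneg fun i _ => A.nn i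
  have hmB : 0 ≤ B.m := Finset.sum_nonneg fun i _ => B.nn i
  obtain ⟨hp, -⟩ := hmain T u A B hT1 hu1 hu4 hA.le hB.le
  have hZle : (Z : ℝ) ≤ T ^ η := Nat.floor_le (by positivity)
  -- membership
  have hmem : ∀ p ∈ (FP π.q Z).erase (1, 1), 1 ≤ p.1 ∧ 1 ≤ p.2 ∧ Nat.Coprime p.1 p.2 ∧
      p.1 * p.2 ≤ Z ∧ Nat.Coprime (p.1 * p.2) π.q ∧ p ≠ (1, 1) ∧ p ∈ FP π.q Z := by
    intro p hp
    rw [Finset.mem_erase] at hp
    have h2 := hp.2
    unfold FP at h2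
    rw [Finset.mem_filter, Finset.mem_product, Finset.mem_Icc, Finset.mem_Icc] at h2
    exact ⟨h2.1.1.1, h2.1.2.1, h2.2.1, h2.2.2.1, h2.2.2.2, hp.1, hp.2⟩
  -- each term
  have hterm : ∀ p ∈ (FP π.q Z).erase (1, 1),
      ‖Sm A B (fun t => ((Wt N u t : ℝ) : ℂ) *
            Rr π Y u p.1 p.2 t * ei (t * (Real.log p.1 - Real.log p.2)))‖ ≤
        CL * (CK / Real.log T) * (((p.1 : ℝ) * p.2) ^ (-(1 / 2) + 1 / 8 : ℝ) *
          KK A B u (Real.log p.1 - Real.log p.2)) + T ^ (-(2 : ℝ)) * (A.m * B.m) := by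
    intro p hpm
    obtain ⟨h1, h2, h3, h4, h5, h6, h7⟩ := hmem p hpm
    refine (hp p h7).trans ?_
    have hk0 : 0 ≤ KK A B u (Real.log p.1 - Real.log p.2) :=
      (hKB A B u _ (by linarith)).2.1
    have hk := hkey Y p.1 p.2 (Real.log T) hY2 h1 h2 h3 h5 h6 hlogT hlogY
    have hpp : 0 < (p.1 : ℝ) * p.2 := by
      have a1 : (0 : ℝ) < p.1 := by exact_mod_cast h1
      have a2 : (0 : ℝ) < p.2 := by exact_mod_cast h2
      positivity
    have e1 : ((p.1 : ℝ) * p.2) ^ (-(1 / 2) + 1 / 8 : ℝ) =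
        ((p.1 : ℝ) * p.2) ^ (-(1 / 2) : ℝ) * ((p.1 : ℝ) * p.2) ^ (1 / 8 : ℝ) :=
      Real.rpow_add hpp _ _
    rw [e1]
    have e2 : CL * (((p.1 : ℝ) * p.2) ^ (-(1 / 2) : ℝ) *
        (|Q1 π.q Y p.1 p.2| * Real.log T + |Q2 π.q Y p.1 p.2|)) ≤
        CL * (CK / Real.log T) * (((p.1 : ℝ) * p.2) ^ (-(1 / 2) : ℝ) *
          ((p.1 : ℝ) * p.2) ^ (1 / 8 : ℝ)) := by
      calc CL * (((p.1 : ℝ) * p.2) ^ (-(1 / 2) : ℝ) *
            (|Q1 π.q Y p.1 p.2| * Real.log T + |Q2 π.q Y p.1 p.2|))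
          ≤ CL * (((p.1 : ℝ) * p.2) ^ (-(1 / 2) : ℝ) *
            (CK / Real.log T * ((p.1 : ℝ) * p.2) ^ (1 / 8 : ℝ))) := by
            apply mul_le_mul_of_nonneg_left _ hCL.le
            exact mul_le_mul_of_nonneg_left hk (by positivity)
        _ = _ := by ring
    have e3 := mul_le_mul_of_nonneg_right e2 hk0
    calc _ ≤ CL * (CK / Real.log T) * (((p.1 : ℝ) * p.2) ^ (-(1 / 2) : ℝ) *
          ((p.1 : ℝ) * p.2) ^ (1 / 8 : ℝ)) * KK A B u (Real.log p.1 - Real.log p.2) +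
          T ^ (-(2 : ℝ)) * (A.m * B.m) := by
          linarith
      _ = _ := by ring
  refine (Finset.sum_le_sum hterm).trans ?_
  rw [Finset.sum_add_distrib, ← Finset.mul_sum, Finset.sum_const, nsmul_eq_mul]
  -- the main term
  have hdy' := hdy A B T μ ν u 1 (T ^ η) ((FP π.q Z).erase (1, 1)) hA hB hu3 le_rfl hTη (by
    intro p hpm
    obtain ⟨h1, h2, h3, h4, h5, h6, h7⟩ := hmem p hpm
    refine ⟨h1, h2, h3, ?_, ?_⟩
    · exact_mod_cast (Nat.one_le_iff_ne_zero.2 (Nat.mul_ne_zero (by omega) (by omega)))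
    · refine le_trans ?_ hZle
      exact_mod_cast h4)
  have hLam : 0 ≤ Lam A B μ ν := Real.sqrt_nonneg _
  have h34 : (T ^ η) ^ (3 / 4 : ℝ) ≤ u := by
    rw [← Real.rpow_mul hT0.le]
    refine le_trans (Real.rpow_le_rpow_of_exponent_le hTge1 ?_) hu2
    linarith
  have hm1 : ∑ p ∈ (FP π.q Z).erase (1, 1), ((p.1 : ℝ) * p.2) ^ (-(1 / 2) + 1 / 8 : ℝ) *
      KK A B u (Real.log p.1 - Real.log p.2) ≤ CD * (2 * u) * Lam A B μ ν := by
    refine hdy'.trans ?_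
    apply mul_le_mul_of_nonneg_right _ hLam
    apply mul_le_mul_of_nonneg_left _ hCD.le
    rw [Real.one_rpow, mul_one]
    linarith
  have hcard : (((FP π.q Z).erase (1, 1)).card : ℝ) ≤ T := by
    have h1 : ((FP π.q Z).erase (1, 1)).card ≤ Z * Z := by
      refine (Finset.card_le_card (Finset.erase_subset _ _)).trans ?_
      unfold FP
      refine (Finset.card_filter_le _ _).trans ?_
      rw [Finset.card_product, Nat.card_Icc]
      simp
    have h2 : (((FP π.q Z).erase (1, 1)).card : ℝ) ≤ (Z : ℝ) * Z := by exact_mod_cast h1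
    refine h2.trans ?_
    calc (Z : ℝ) * Z ≤ T ^ η * T ^ η := mul_le_mul hZle hZle (Nat.cast_nonneg _) (by positivity)
      _ = T ^ (η + η) := by rw [← Real.rpow_add hT0]
      _ ≤ T ^ (1 : ℝ) := Real.rpow_le_rpow_of_exponent_le hTge1 (by linarith)
      _ = T := Real.rpow_one T
  have hTT : T * T ^ (-(2 : ℝ)) = T ^ (-(1 : ℝ)) := by
    nth_rewrite 1 [← Real.rpow_one T]
    rw [← Real.rpow_add hT0]
    norm_num
  refine add_le_add ?_ ?_
  · calc CL * (CK / Real.log T) * ∑ p ∈ (FP π.q Z).erase (1, 1),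
          ((p.1 : ℝ) * p.2) ^ (-(1 / 2) + 1 / 8 : ℝ) * KK A B u (Real.log p.1 - Real.log p.2)
        ≤ CL * (CK / Real.log T) * (CD * (2 * u) * Lam A B μ ν) :=
          mul_le_mul_of_nonneg_left hm1 (by positivity)
      _ = CL * CK * CD * 2 * (u / Real.log T) * Lam A B μ ν := by ring
  · calc (((FP π.q Z).erase (1, 1)).card : ℝ) * (T ^ (-(2 : ℝ)) * (A.m * B.m))
        ≤ T * (T ^ (-(2 : ℝ)) * (A.m * B.m)) :=
          mul_le_mul_of_nonneg_right hcard (by positivity)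
      _ = T ^ (-(1 : ℝ)) * (A.m * B.m) := by rw [← mul_assoc, hTT]

end Pool.Agent.H6.OT
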